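import Mathlib
import Pool.Agent.R439.QLoc
import Pool.Agent.R439.QH

set_option autoImplicit false

namespace Pool.Agent.Results.MP_4d1f21_nt.QCongruence

open Finset Polynomial Pool.Agent.R439

theorem hb {m : ℕ} (hm : 0 < m) : ∀ i : ℕ, 0 < i → (q ^ m) ^ i ≠ 1 := by
  intro i hi
  rw [← pow_mul]
  exact q_pow_ne_one (Nat.mul_pos hm hi).ne'

/-- the parametrized term -/
noncomputable def t (d n m : ℕ) (k : ℕ) (s : ℕ → ℤ) : K :=
  (∏ i ∈ range d, poch (q ^ (((i + 1 : ℕ) : ℤ) + (n : ℤ) * s i)) (q ^ m) k) *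
    ((poch (q ^ m) (q ^ m) k)⁻¹ ^ d * q ^ (m * k))

theorem aff_t {n : ℕ} [NeZero n] (d m k : ℕ) (hk : k < n) (hnm : Nat.Coprime n m) :
    Aff n (t d n m k) := by
  refine Aff.mul (Aff.prod fun i _ => ?_) (Aff.const ?_)
  · unfold poch
    refine Aff.prod fun j _ => ?_
    refine (Aff.const (one_mem _)).sub (Aff.mul ?_ (Aff.const (pow_mem (pow_mem' _) _)))
    exact Aff.qpow _ (Pi.evalAddMonoidHom (fun _ : ℕ => ℤ) i)
  · refine mul_mem (pow_mem ?_ _) (pow_mem' _)
    rw [poch, ← Finset.prod_inv_distrib]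
    refine prod_mem fun j hj => ?_
    rw [← pow_succ', ← pow_mul]
    apply inv_one_sub_mem
    intro h
    have h2 : n ∣ j + 1 := hnm.dvd_of_dvd_mul_left h
    have := Nat.le_of_dvd (Nat.succ_pos _) h2
    have := mem_range.1 hj
    omega

/-- the vector `(1, 2, …, d)` -/
def v (d : ℕ) : ℕ → ℤ := ∑ i ∈ range d, ((i + 1 : ℕ) : ℤ) • Pi.single i (1 : ℤ)

theorem v_apply (d : ℕ) {i : ℕ} (hi : i < d) : v d i = ((i + 1 : ℕ) : ℤ) := by
  unfold v
  rw [Finset.sum_apply, sum_eq_single i]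
  · simp
  · intro j _ hj
    simp [Pi.single_eq_of_ne hj.symm]
  · intro h; exact absurd (mem_range.2 hi) h

/-- the special vectors -/
def vs (d m i0 : ℕ) : ℕ → ℤ := v d - (m : ℤ) • Pi.single i0 (1 : ℤ)

theorem sum_id (d : ℕ) : ∑ i ∈ range d, (i + 1) = d * (d + 1) / 2 := by
  have := Finset.sum_range_id_mul_two (d + 1)
  rw [Finset.sum_range_succ'] at this
  have h2 : (∑ i ∈ range d, (i + 1)) * 2 = d * (d + 1) := by
    rw [mul_comm d]; simpa using this
  omega

/-- exact vanishing at the special exponents -/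
theorem special {d n m e : ℕ} (hd : 3 ≤ d) (hn : 1 < n) (hm : m = d * (d + 1) / 2)
    (he : n + 1 = m * e) {i0 : ℕ} (hi0 : i0 < d) :
    ∑ k ∈ range n, t d n m k (vs d m i0) = 0 := by
  have hm2 : 2 * m = d * (d + 1) := by
    rw [hm]
    exact Nat.mul_div_cancel' (Nat.even_mul_succ_self d).two_dvd
  have hmpos : 0 < m := by
    rcases Nat.eq_zero_or_pos m with h | h
    · subst h; simp at he
    · exact h
  have hepos : 0 < e := by
    rcases Nat.eq_zero_or_pos e with h | h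
    · subst h; simp at he
    · exact h
  have hsum : ∑ i ∈ range d, (i + 1) = m := by rw [sum_id, hm]
  have hde : (d + 1) * (d * e) = 2 * (n + 1) := by
    rw [he]
    calc (d + 1) * (d * e) = (d * (d + 1)) * e := by ring
      _ = 2 * m * e := by rw [hm2]
      _ = 2 * (m * e) := by ring
  have hle : (i0 + 1) * e ≤ d * e := Nat.mul_le_mul_right _ hi0
  have h4 : 4 * (d * e) ≤ 2 * (n + 1) := by
    rw [← hde]; exact Nat.mul_le_mul_right _ (by omega)
  obtain ⟨M1, hM1⟩ : ∃ M1 : ℕ, n = (i0 + 1) * e + M1 := ⟨n - (i0 + 1) * e, by omega⟩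
  have hM1n : M1 < n := by
    have : 0 < (i0 + 1) * e := Nat.mul_pos (Nat.succ_pos _) hepos
    omega
  set B : K := q ^ m with hB
  have hB0 : B ≠ 0 := pow_ne_zero _ q_ne
  have hB1 := hb hmpos
  set R : K[X] := ∏ i ∈ (range d).erase i0, Rp B ((i + 1) * e) with hR
  have hdeg : R.natDegree < M1 := by
    have h1 : R.natDegree ≤ ∑ i ∈ (range d).erase i0, ((i + 1) * e - 1) :=
      (natDegree_prod_le _ _).trans (sum_le_sum fun i _ => Rp_deg _ _)
    have h2 : ∑ i ∈ (range d).erase i0, ((i + 1) * e - 1) + (d - 1) + (i0 + 1) * e = m * e := by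
      have h3 : ∑ i ∈ (range d).erase i0, ((i + 1) * e - 1) + (d - 1) =
          ∑ i ∈ (range d).erase i0, ((i + 1) * e) := by
        have : (d - 1) = ∑ i ∈ (range d).erase i0, 1 := by
          rw [sum_const, card_erase_of_mem (mem_range.2 hi0), card_range]; simp
        rw [this, ← sum_add_distrib]
        refine sum_congr rfl fun i _ => ?_
        have : 0 < (i + 1) * e := Nat.mul_pos (Nat.succ_pos _) hepos
        omega
      rw [h3, sum_erase_add _ _ (mem_range.2 hi0), ← sum_mul, hsum]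
    omega
  have hterm : ∀ k, t d n m k (vs d m i0) =
      tc B M1 k * (B ^ k * R.eval (B ^ k)) := by
    intro k
    have hk0 : poch B B k ≠ 0 := poch_self_ne hB1 k
    have hexp : ∀ i ∈ (range d).erase i0,
        poch (q ^ (((i + 1 : ℕ) : ℤ) + (n : ℤ) * vs d m i0 i)) B k =
        poch (B ^ ((i + 1) * e)) B k := by
      intro i hi
      rw [mem_erase, mem_range] at hi
      congr 1
      have h1 : vs d m i0 i = ((i + 1 : ℕ) : ℤ) := by
        rw [vs, Pi.sub_apply, v_apply d hi.2, Pi.smul_apply, Pi.single_eq_of_ne hi.1, smul_zero,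
          sub_zero]
      rw [h1, hB, ← pow_mul, ← zpow_natCast]
      congr 1
      have h2 : ((n : ℤ) + 1) = (m : ℤ) * e := by exact_mod_cast he
      push_cast
      linear_combination ((i : ℤ) + 1) * h2
    have hexp0 : q ^ (((i0 + 1 : ℕ) : ℤ) + (n : ℤ) * vs d m i0 i0) =
        B ^ (-(M1 : ℤ)) := by
      have h1 : vs d m i0 i0 = ((i0 + 1 : ℕ) : ℤ) - m := by
        rw [vs, Pi.sub_apply, v_apply d hi0, Pi.smul_apply, Pi.single_eq_same, smul_eq_mul, mul_one]
      rw [h1, hB, ← zpow_natCast, ← zpow_mul]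
      congr 1
      have h2 : ((n : ℤ) + 1) = (m : ℤ) * e := by exact_mod_cast he
      have h3 : (n : ℤ) = ((i0 : ℤ) + 1) * e + M1 := by exact_mod_cast hM1
      push_cast
      linear_combination ((i0 : ℤ) + 1) * h2 - (m : ℤ) * h3
    unfold t
    rw [← mul_prod_erase (range d) _ (mem_range.2 hi0), hexp0, prod_congr rfl hexp, ← hB]
    have hcount : (poch B B k)⁻¹ ^ d = (poch B B k)⁻¹ *
        ∏ i ∈ (range d).erase i0, (poch B B k)⁻¹ := by
      rw [prod_const, card_erase_of_mem (mem_range.2 hi0), card_range, ← pow_succ']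
      congr 1; omega
    have hRe : R.eval (B ^ k) = ∏ i ∈ (range d).erase i0,
        (poch (B ^ ((i + 1) * e)) B k * (poch B B k)⁻¹) := by
      rw [hR, eval_prod]
      refine prod_congr rfl fun i _ => ?_
      rw [← Rp_eval hB1 (Nat.mul_pos (Nat.succ_pos _) hepos), div_eq_mul_inv]
    rw [hRe, prod_mul_distrib, hcount, tc, div_eq_mul_inv, pow_mul, ← hB]
    ring
  rw [sum_congr rfl fun k _ => hterm k]
  exact tc_poly_zero hB0 hB1 hM1n R hdeg

/-- **Answer to Q1.** For all `d ≥ 3` and `n > 1` with `n ≡ -1 (mod m)`, `m = d(d+1)/2`, the sum is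
divisible by `Φ_n(q)^2`. -/
theorem result (d n : ℕ) (hd : 3 ≤ d) (hn : 1 < n) (h : d * (d + 1) / 2 ∣ n + 1) :
    Cong (cyclotomic n ℚ ^ 2)
      (∑ k ∈ range n, (∏ i ∈ range d, poch (q ^ (i + 1)) (q ^ (d * (d + 1) / 2)) k) /
        (poch (q ^ (d * (d + 1) / 2)) (q ^ (d * (d + 1) / 2)) k) ^ d *
        q ^ ((d * (d + 1) / 2) * k)) 0 := by
  have : NeZero n := ⟨by omega⟩
  obtain ⟨m, hm⟩ : ∃ m, m = d * (d + 1) / 2 := ⟨_, rfl⟩
  rw [← hm] at h ⊢
  obtain ⟨e, he⟩ := h
  have hcop : Nat.Coprime n m := by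
    rw [Nat.coprime_iff_gcd_eq_one]
    have h1 : n.gcd m ∣ 1 := by
      have h2 : n.gcd m ∣ n + 1 := (Nat.gcd_dvd_right n m).trans ⟨e, he⟩
      exact (Nat.dvd_add_right (Nat.gcd_dvd_left n m)).1 h2
    exact Nat.dvd_one.1 h1
  rw [Cong, sub_zero]
  apply num_of_I
  set F : (ℕ → ℤ) → K := fun s => ∑ k ∈ range n, t d n m k s with hF
  have hAff : Aff n F := Aff.sum fun k hk => aff_t d m k (mem_range.1 hk) hcop
  obtain ⟨L, hL, hF0, H⟩ := hAff.lin
  have hgoal : (∑ k ∈ range n, (∏ i ∈ range d, poch (q ^ (i + 1)) (q ^ m) k) /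
        (poch (q ^ m) (q ^ m) k) ^ d * q ^ (m * k)) = F 0 := by
    rw [hF]
    refine sum_congr rfl fun k _ => ?_
    unfold t
    have h1 : ∀ i ∈ range d, poch (q ^ (((i + 1 : ℕ) : ℤ) + (n : ℤ) * (0 : ℕ → ℤ) i)) (q ^ m) k =
        poch (q ^ (i + 1)) (q ^ m) k := by
      intro i _
      rw [Pi.zero_apply, mul_zero, add_zero, zpow_natCast]
    rw [prod_congr rfl h1, inv_pow]
    ring
  rw [hgoal]
  have hs : ∀ i0 ∈ range d, I n 2 ((((i0 + 1 : ℕ) : K)) *
      (F 0 + w n * (L (v d) - (m : K) * L (Pi.single i0 1)))) := by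
    intro i0 hi0
    have h1 := H (vs d m i0)
    have h2 : F (vs d m i0) = 0 :=
      special hd hn hm he (mem_range.1 hi0)
    rw [h2, zero_sub] at h1
    have h3 : L (vs d m i0) = L (v d) - (m : K) * L (Pi.single i0 1) := by
      rw [vs, map_sub, map_zsmul, zsmul_eq_mul]; push_cast; rfl
    rw [h3] at h1
    have := h1.neg
    rw [neg_neg] at this
    exact this.mulL (natCast_mem _ _)
  have h4 := I.sum hs
  have hsumd : ∑ i ∈ range d, ((i + 1 : ℕ) : K) = (m : K) := by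
    rw [← Nat.cast_sum, sum_id, hm]
  have hLv : L (v d) = ∑ i ∈ range d, ((i + 1 : ℕ) : K) * L (Pi.single i 1) := by
    rw [v, map_sum]
    refine sum_congr rfl fun i _ => ?_
    rw [map_zsmul, zsmul_eq_mul]; push_cast; rfl
  have h5 : ∑ i0 ∈ range d, (((i0 + 1 : ℕ) : K)) *
      (F 0 + w n * (L (v d) - (m : K) * L (Pi.single i0 1))) = (m : K) * F 0 := by
    have : ∀ i0 ∈ range d, (((i0 + 1 : ℕ) : K)) *
      (F 0 + w n * (L (v d) - (m : K) * L (Pi.single i0 1))) =
      ((i0 + 1 : ℕ) : K) * (F 0 + w n * L (v d)) -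
        (w n * (m : K)) * (((i0 + 1 : ℕ) : K) * L (Pi.single i0 1)) := by
      intro i0 _; ring
    rw [sum_congr rfl this, sum_sub_distrib, ← sum_mul, ← mul_sum, hsumd, ← hLv]
    ring
  rw [h5] at h4
  have hm0 : (m : K) ≠ 0 := by
    have : m ≠ 0 := by rintro rfl; simp at he
    exact_mod_cast this
  exact I.cancel hm0 (natinv_mem m) h4

end Pool.Agent.Results.MP_4d1f21_nt.QCongruence
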